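import Pool.Agent.Helper61.QL.Goals

/-!
# Packet QL-SPLL: the splitting in the untwisted coordinates
-/

set_option autoImplicit false

open Set

namespace Pool.Agent.Helper36.QL

open Pool.Agent.Helper61 Pool.Agent.Helper61.QL
open Pool.Agent.Helper61.QS (V En tr rk W R4 Box Compat BoxSplit)

/-- the inverse shift of `R4` -/
def ush (Λ : ℝ × ℝ → ℝ) (x : R4) : R4 := (x.1, x.2.1, x.2.2.1, x.2.2.2 - Λ (x.1, x.2.2.1))

theorem continuous_ush {Λ : ℝ × ℝ → ℝ} (h : Continuous Λ) : Continuous (ush Λ) := by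
  unfold ush
  fun_prop

theorem shL_ush (Λ : ℝ × ℝ → ℝ) (x : R4) : shL Λ (ush Λ x) = x := by
  obtain ⟨r, s, α, β⟩ := x
  simp [shL, ush]

theorem ush_mem (Λ : ℝ × ℝ → ℝ) {x : R4} (hx : x ∈ Box) : ush Λ x ∈ Box := hx

theorem compat_ush {m : ℤ} {Y : Type} {f : R4 → Y} {Λ : ℝ × ℝ → ℝ} (hΛ : IsShift Λ)
    (hf : CompatL (twL m Λ) f) : Compat m (fun x => f (ush Λ x)) := by
  refine ⟨?_, ?_, ?_, ?_, ?_, ?_⟩
  · intro r θ α β h
    have h1 := hf.perα r θ α (β - Λ (r, α)) h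
    show f (r, θ, α + 2 * Real.pi, β - Λ (r, α + 2 * Real.pi)) = f (r, θ, α, β - Λ (r, α))
    rw [hΛ.per, h1]
  · intro r θ α β h
    have h1 := hf.perβ r θ α (β - Λ (r, α)) h
    show f (r, θ, α, β + 2 * Real.pi - Λ (r, α)) = f (r, θ, α, β - Λ (r, α))
    rw [show β + 2 * Real.pi - Λ (r, α) = β - Λ (r, α) + 2 * Real.pi by ring, h1]
  · intro θ α β h0 h1
    show f (0, θ, α, β - Λ (0, α)) = f (0, θ, 0, β - Λ (0, 0))
    rw [hΛ.zero, hΛ.zero, hf.r0 θ _ _ h0 h1]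
  · intro θ α β h0 h1
    show f (Real.pi / 2, θ, α, β - Λ (Real.pi / 2, α)) =
      f (Real.pi / 2, θ, 0, β - m * α - Λ (Real.pi / 2, 0))
    rw [hf.r1 θ _ _ h0 h1]
    unfold twL
    congr 4
    ring
  · intro r α β h0 h1
    show f (r, 0, α, β - Λ (r, α)) = f (r, 0, α, 0 - Λ (r, α))
    rw [hf.t0 r _ _ h0 h1, hf.t0 r _ (0 - Λ (r, α)) h0 h1]
  · intro r α β h0 h1
    show f (r, Real.pi, α, β - Λ (r, α)) = f (r, Real.pi, α, 0 - Λ (r, α))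
    rw [hf.t1 r _ _ h0 h1, hf.t1 r _ (0 - Λ (r, α)) h0 h1]

/-- **L-SPLL** -/
theorem goalSPLL : G_SPLL := by
  intro m Λ hΛ n e h
  obtain ⟨N, f, h1, h2, h3, h4⟩ := h
  refine ⟨N, fun j x => f j (ush Λ x), ?_, ?_, ?_, ?_⟩
  · intro j
    refine ⟨?_, compat_ush hΛ (h1 j).2⟩
    exact (h1 j).1.comp (continuous_ush hΛ.sm.continuous).continuousOn
      (fun x hx => ush_mem Λ hx)
  · intro j x hx
    exact h2 j _ (ush_mem Λ hx)
  · intro i j hij x hx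
    exact h3 i j hij _ (ush_mem Λ hx)
  · intro x hx
    have h5 := h4 (ush Λ x) (ush_mem Λ hx)
    rw [h5]
    show e (QS.pol (shL Λ (ush Λ x))) = e (QS.pol x)
    rw [shL_ush]

end Pool.Agent.Helper36.QL
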